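import Pool.Agent.Run7.h384.AB.Mods

/-!
# Duals
-/

set_option autoImplicit false

open Finset Module

universe u

namespace Pool.Agent.Run7.h384.AB

open Pool.Agent.Run7.h384.HG

/-- The data of a product with a string of length `n + 1`. -/
structure Step (M M' : LMod.{u}) (n : ℕ) where
  B : ℕ → M.V →ₗ[ℚ] M'.V
  R : ℕ → M'.V →ₗ[ℚ] M.V
  δ : ℚ
  δ_pos : 0 < δ
  LB : ∀ s v, M'.L (B s v) = B (s + 1) v + B s (M.L v)
  LR : ∀ s w, R s (M'.L w) = R (s + 1) w + M.L (R s w)
  B_zero : ∀ s, n < s → B s = 0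
  R_zero : ∀ s, n < s → R s = 0
  RB : ∀ s t v, R s (B t v) = if s + t = n then δ • v else 0
  B_mem : ∀ s i v, v ∈ M.G i → B s v ∈ M'.G (i + s)
  R_mem : ∀ s i w, w ∈ M'.G i → n ≤ i + s → R s w ∈ M.G (i + s - n)
  R_low : ∀ s i w, w ∈ M'.G i → i + s < n → R s w = 0
  FB : ∀ s t v v', M'.F (B s v) (B t v') = if s + t = n then (δ : ℝ) * M.F v v' else 0
  hh : M'.h = M.h + n

/-- The dual. -/
@[reducible]
noncomputable def LMod.dual (M : LMod.{u}) : LMod.{u} where
  V := Dual ℚ M.V
  G i :=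
    { carrier := {φ | ∀ i', i' + i ≠ M.h → ∀ v ∈ M.G i', φ v = 0}
      zero_mem' := fun _ _ _ _ => rfl
      add_mem' := fun {a b} ha hb i' hi v hv => by
        rw [LinearMap.add_apply, ha i' hi v hv, hb i' hi v hv, add_zero]
      smul_mem' := fun q a ha i' hi v hv => by
        rw [LinearMap.smul_apply, ha i' hi v hv, smul_zero] }
  L := M.L.dualMap
  h := M.h
  F := 0
  L_mem := by
    intro i φ hφ i' hi v hv
    exact hφ (i' + 1) (by omega) _ (M.L_mem hv)
  adj := fun _ _ => rfl

variable {M M' : LMod.{u}} {n : ℕ}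

/-- A step is a weak step. -/
def Step.toW (S : Step M M' n) : WStep M M' n where
  B := S.B
  R := S.R 0
  δ := S.δ
  δ_ne := S.δ_pos.ne'
  LB := S.LB
  B_zero := S.B_zero
  RB t v := by rw [S.RB, zero_add]
  B_mem := S.B_mem
  hh := S.hh

/-- The dual of a step is a weak step. -/
noncomputable def Step.dual (S : Step M M' n) : WStep M.dual M'.dual n where
  B s := (S.R s).dualMap
  R := (S.B 0).dualMap
  δ := S.δ
  δ_ne := S.δ_pos.ne'
  LB s φ := by
    apply LinearMap.ext
    intro w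
    change φ (S.R s (M'.L w)) = φ (S.R (s + 1) w) + φ (M.L (S.R s w))
    rw [S.LR, map_add]
  B_zero s hs := by
    rw [S.R_zero s hs]
    apply LinearMap.ext
    intro φ
    apply LinearMap.ext
    intro w
    exact map_zero (φ : Dual ℚ M.V)
  RB t φ := by
    apply LinearMap.ext
    intro v
    change φ (S.R t (S.B 0 v)) = _
    rw [S.RB, add_zero]
    split_ifs
    · rw [map_smul]; rfl
    · rw [map_zero]; rfl
  B_mem s i φ hφ i' hi w hw := by
    change (φ : Dual ℚ M.V) (S.R s w) = 0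
    by_cases h : i' + s < n
    · rw [S.R_low s i' w hw h, map_zero]
    · have hh := S.hh
      change i' + (i + s) ≠ M'.h at hi
      exact hφ (i' + s - n) (by omega) _ (S.R_mem s i' w hw (by omega))
  hh := S.hh

/-- Sequences of products. -/
inductive Chain : LMod.{u} → List ℕ → LMod.{u} → Prop
  | nil (M : LMod.{u}) : Chain M [] M
  | cons {M M' M'' : LMod.{u}} {ns : List ℕ} {n : ℕ} : Chain M ns M' →
      Nonempty (Step M' M'' n) → Chain M (n :: ns) M''

theorem Chain.toW {ns : List ℕ} (h : Chain M ns M') : WChain M ns M' := by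
  induction h with
  | nil => exact WChain.nil _
  | cons _ hS ih => exact WChain.cons ih ⟨hS.some.toW⟩

theorem Chain.dual {ns : List ℕ} (h : Chain M ns M') : WChain M.dual ns M'.dual := by
  induction h with
  | nil => exact WChain.nil _
  | cons _ hS ih => exact WChain.cons ih ⟨hS.some.dual⟩

lemma dual_pow (φ : Dual ℚ M.V) (k : ℕ) : (M.dual.L ^ k) φ = φ ∘ₗ (M.L ^ k) := by
  induction k with
  | zero => rfl
  | succ k ih =>
    rw [pow_succ', Module.End.mul_apply, ih]
    ext v
    change φ ((M.L ^ k) (M.L v)) = φ ((M.L ^ (k + 1)) v)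
    rw [pow_succ, Module.End.mul_apply]

/-- Surjectivity is injectivity of the dual. -/
theorem inj_dual_of_surj (hG : ⨆ i, M.G i = ⊤) {j : ℕ} (hS : Surj M j) : Inj M.dual j := by
  intro φ hφ h0
  rw [dual_pow] at h0
  have h1 : ∀ i, ∀ v ∈ M.G i, φ v = 0 := by
    intro i v hv
    by_cases hi : i + j = M.h
    · obtain rfl : i = M.h - j := by omega
      obtain ⟨v', _, rfl⟩ := hS v hv
      exact congrArg (fun f => f v') h0
    · exact hφ i hi v hv
  ext v
  have h2 : v ∈ ⨆ i, M.G i := by rw [hG]; trivial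
  have h3 : (⨆ i, M.G i) ≤ LinearMap.ker φ := iSup_le fun i w hw => h1 i w hw
  exact h3 h2

theorem surj_of_inj_dual (hG : DirectSum.IsInternal M.G) {j : ℕ} (hj : 2 * j ≤ M.h)
    (hI : Inj M.dual j) : Surj M j := by
  classical
  intro v hv
  by_contra hne
  push Not at hne
  set m := M.h - 2 * j with hm
  -- the span of the images and of the other degrees
  set S : Submodule ℚ M.V := (M.G j).map (M.L ^ m) ⊔ ⨆ (i : ℕ) (_ : i ≠ M.h - j), M.G i with hSdef
  have hvS : v ∉ S := by
    intro hvS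
    obtain ⟨a, ha, b, hb, hab⟩ := Submodule.mem_sup.1 hvS
    obtain ⟨v', hv', rfl⟩ := ha
    have h1 : v - (M.L ^ m) v' ∈ M.G (M.h - j) := by
      apply Submodule.sub_mem _ hv
      have := M.pow_mem hv' m
      rwa [show j + m = M.h - j by omega] at this
    have h2 : v - (M.L ^ m) v' = b := by rw [← hab]; abel
    rw [h2] at h1
    have h3 := (hG.submodule_iSupIndep (M.h - j))
    have h4 : b = 0 := by
      have := Submodule.disjoint_def.1 h3 b h1
      exact this hb
    exact hne v' hv' (by rw [h4, sub_eq_zero] at h2; exact h2.symm)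
  obtain ⟨f, hf1, hf2⟩ := Submodule.exists_le_ker_of_notMem hvS
  have h1 : f ∈ M.dual.G j := by
    intro i' hi' w hw
    have : w ∈ S := Submodule.mem_sup_right (Submodule.mem_iSup_of_mem i'
      (Submodule.mem_iSup_of_mem (by omega) hw))
    exact hf2 this
  have h2 : f = 0 := by
    apply hI f h1
    rw [dual_pow]
    apply LinearMap.ext
    intro w
    have h3 : w ∈ ⨆ i, M.G i := by rw [hG.submodule_iSup_eq_top]; trivial
    have h4 : (⨆ i, M.G i) ≤ LinearMap.ker (f ∘ₗ (M.L ^ m)) := by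
      apply iSup_le
      intro i u hu
      rw [LinearMap.mem_ker, LinearMap.comp_apply]
      by_cases hi : i = j
      · subst hi
        exact hf2 (Submodule.mem_sup_left ⟨u, hu, rfl⟩)
      · have h5 := M.pow_mem hu m
        exact hf2 (Submodule.mem_sup_right (Submodule.mem_iSup_of_mem (i + m)
          (Submodule.mem_iSup_of_mem (by omega) h5)))
    exact h4 h3
  rw [h2] at hf1
  exact hf1 rfl

/-- **The Lefschetz isomorphism in one degree of a product.** -/
theorem Chain.lefschetz {ns : List ℕ} (h : Chain M ns M') (hG : DirectSum.IsInternal M.G)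
    (hG' : ⨆ i, M'.G i = ⊤) {j q : ℕ} (h0 : 2 * j ≤ M.h) (h1 : j ≤ q) (h2 : q ≤ j + ns.sum)
    (h3 : 2 * q < M.h + ns.sum) (h4 : ∀ n ∈ ns, q + j + n < M.h + ns.sum)
    (hI : Inj M' q ∧ Surj M' q) : Inj M j ∧ Surj M j :=
  ⟨h.toW.inj h1 h2 h3 h4 hI.1, surj_of_inj_dual hG h0
    (h.dual.inj h1 h2 h3 h4 (inj_dual_of_surj hG' hI.2))⟩

end Pool.Agent.Run7.h384.AB
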