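import Mathlib

/-!
# Chow groups with height pairings: definitions
-/

set_option autoImplicit false

open Finset

universe u v

namespace Pool.Agent.Run7.h384.AB

section Alg

variable {A : Type*} [CommRing A] [Algebra ℚ A] {B : Type*} [CommRing B] [Algebra ℚ B]
  {C : Type*} [CommRing C] [Algebra ℚ C]

/-- The ring `A` with the subspaces `gr i` and the degree `deg` looks like the Chow ring of a variety
of dimension `n`. -/
structure IsChowRing (gr : ℕ → Submodule ℚ A) (n : ℕ) (deg : A →ₗ[ℚ] ℚ) : Prop where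
  one_mem : 1 ∈ gr 0
  mul_mem : ∀ i j a b, a ∈ gr i → b ∈ gr j → a * b ∈ gr (i + j)
  gr_eq_bot : ∀ i, n < i → gr i = ⊥
  deg_eq_zero : ∀ i, ∀ a ∈ gr i, i ≠ n → deg a = 0

/-- The subspace `hom` of the classes homologous to zero is a graded ideal. -/
structure IsHomIdeal (gr : ℕ → Submodule ℚ A) (hom : Submodule ℚ A) : Prop where
  mul : ∀ a ∈ hom, ∀ c : A, c * a ∈ hom
  internal : DirectSum.IsInternal fun i => (gr i).comap hom.subtype

/-- The ring homomorphism `p` preserves the codimensions. -/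
def IsGraded (grA : ℕ → Submodule ℚ A) (grC : ℕ → Submodule ℚ C) (p : A →ₐ[ℚ] C) : Prop :=
  ∀ i, ∀ a ∈ grA i, p a ∈ grC i

/-- The push-forward `g : C → B` along the projection `X × Y → Y`, where `n = dim X` and `p : A → C`,
`q : B → C` are the pull-backs along the projections. -/
structure IsPush (n : ℕ) (grB : ℕ → Submodule ℚ B) (grC : ℕ → Submodule ℚ C)
    (deg : A →ₗ[ℚ] ℚ) (p : A →ₐ[ℚ] C) (q : B →ₐ[ℚ] C) (g : C →ₗ[ℚ] B) : Prop where
  push_mem : ∀ i, ∀ c ∈ grC i, n ≤ i → g c ∈ grB (i - n)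
  push_low : ∀ i, ∀ c ∈ grC i, i < n → g c = 0
  push_fst : ∀ a, g (p a) = deg a • 1
  proj : ∀ c b, g (q b * c) = b * g c

/-- Pull-back and push-forward preserve the classes homologous to zero. -/
structure KeepsHom (homB : Submodule ℚ B) (homC : Submodule ℚ C) (q : B →ₐ[ℚ] C)
    (g : C →ₗ[ℚ] B) : Prop where
  hom_pull : ∀ b ∈ homB, q b ∈ homC
  hom_push : ∀ c ∈ homC, g c ∈ homB

/-- The height pairing is bilinear on the classes homologous to zero, and multiplication by a class
is self-adjoint. -/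
structure IsHeight (hom : Submodule ℚ A) (ht : A → A → ℝ) : Prop where
  add_left : ∀ a ∈ hom, ∀ b ∈ hom, ∀ c ∈ hom, ht (a + b) c = ht a c + ht b c
  add_right : ∀ a ∈ hom, ∀ b ∈ hom, ∀ c ∈ hom, ht c (a + b) = ht c a + ht c b
  smul_left : ∀ r : ℚ, ∀ a ∈ hom, ∀ b ∈ hom, ht (r • a) b = r * ht a b
  smul_right : ∀ r : ℚ, ∀ a ∈ hom, ∀ b ∈ hom, ht b (r • a) = r * ht b a
  mul : ∀ c, ∀ a ∈ hom, ∀ b ∈ hom, ht (c * a) b = ht a (c * b)

/-- The height pairing of external products. -/
def IsHeightProduct (homB : Submodule ℚ B) (deg : A →ₗ[ℚ] ℚ) (htB : B → B → ℝ)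
    (htC : C → C → ℝ) (p : A →ₐ[ℚ] C) (q : B →ₐ[ℚ] C) : Prop :=
  ∀ x x', ∀ y ∈ homB, ∀ y' ∈ homB,
    htC (p x * q y) (p x' * q y') = (deg (x * x') : ℝ) * htB y y'

end Alg

/-- The data of an intersection theory with height pairings. In the intended use `Var` is the class
of the smooth projective varieties over a number field, `Ch X` is the Chow ring of `X` with rational
coefficients, `gr X i` is `Ch ^ i (X)`, `hom X` is the space of the classes of all codimensions which
are homologous to zero, and `ht X` is the height pairing of Beilinson and Bloch (the sum of the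
pairings `Ch ^ i (X) ^ 0 × Ch ^ (dim X + 1 - i) (X) ^ 0 → ℝ`); only its values on `hom X` matter. -/
structure HeightData where
  /-- the varieties -/
  Var : Type u
  /-- the dimension -/
  dim : Var → ℕ
  /-- the product -/
  prod : Var → Var → Var
  /-- the Chow ring -/
  Ch : Var → Type v
  [ring : ∀ X, CommRing (Ch X)]
  [algebra : ∀ X, Algebra ℚ (Ch X)]
  /-- the classes of codimension `i` -/
  gr : ∀ X, ℕ → Submodule ℚ (Ch X)
  /-- pull-back along the first projection -/
  p1 : ∀ X Y, Ch X →ₐ[ℚ] Ch (prod X Y)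
  /-- pull-back along the second projection -/
  p2 : ∀ X Y, Ch Y →ₐ[ℚ] Ch (prod X Y)
  /-- push-forward along the second projection -/
  push : ∀ X Y, Ch (prod X Y) →ₗ[ℚ] Ch Y
  /-- the degree of zero-cycles, extended by zero -/
  deg : ∀ X, Ch X →ₗ[ℚ] ℚ
  /-- the classes which are homologous to zero -/
  hom : ∀ X, Submodule ℚ (Ch X)
  /-- the height pairing -/
  ht : ∀ X, Ch X → Ch X → ℝ

attribute [instance] HeightData.ring HeightData.algebra

/-- An intersection theory with height pairings. -/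
structure HeightTheory extends HeightData.{u, v} where
  dim_prod : ∀ X Y, dim (prod X Y) = dim X + dim Y
  isChowRing : ∀ X, IsChowRing (gr X) (dim X) (deg X)
  isHomIdeal : ∀ X, IsHomIdeal (gr X) (hom X)
  p1_mem : ∀ X Y, IsGraded (gr X) (gr (prod X Y)) (p1 X Y)
  p2_mem : ∀ X Y, IsGraded (gr Y) (gr (prod X Y)) (p2 X Y)
  isPush : ∀ X Y, IsPush (dim X) (gr Y) (gr (prod X Y)) (deg X) (p1 X Y) (p2 X Y) (push X Y)
  keepsHom : ∀ X Y, KeepsHom (hom Y) (hom (prod X Y)) (p2 X Y) (push X Y)
  isHeight : ∀ X, IsHeight (hom X) (ht X)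
  ht_prod : ∀ X Y, IsHeightProduct (hom Y) (deg X) (ht Y) (ht (prod X Y)) (p1 X Y) (p2 X Y)

variable {T : HeightTheory.{u, v}}

/-- A variety with the class of a divisor. -/
structure Pol (T : HeightTheory.{u, v}) where
  /-- the variety -/
  X : T.Var
  /-- the class of the divisor -/
  lam : T.Ch X
  lam_mem : lam ∈ T.gr X 1

/-- The number `deg (λ ^ dim X)` is positive, for example `λ` is ample. -/
def Positive (P : Pol T) : Prop := 0 < T.deg P.X (P.lam ^ T.dim P.X)

/-- The product, with the sum of the divisors. -/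
@[reducible]
def Pol.prod (P Q : Pol T) : Pol T where
  X := T.prod P.X Q.X
  lam := T.p1 P.X Q.X P.lam + T.p2 P.X Q.X Q.lam
  lam_mem := Submodule.add_mem _ (T.p1_mem P.X Q.X 1 _ P.lam_mem)
    (T.p2_mem P.X Q.X 1 _ Q.lam_mem)

/-- The dimension. -/
@[reducible]
def Pol.dim (P : Pol T) : ℕ := T.dim P.X

/-- The product `X₁ × (X₂ × ⋯ × (X_t × Z))` for the list `X₁, …, X_t`. -/
def prodL (l : List (Pol T)) (Q : Pol T) : Pol T := l.foldr Pol.prod Q

/-- The sum of the dimensions. -/
def dims (l : List (Pol T)) : ℕ := (l.map Pol.dim).sum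

/-- The power with `r + 1` factors. -/
def power (P : Pol T) (r : ℕ) : Pol T := prodL (List.replicate r P) P

/-- The classes of codimension `i` which are homologous to zero. -/
def chow0 (P : Pol T) (i : ℕ) : Set (T.Ch P.X) := {x | x ∈ T.gr P.X i ∧ x ∈ T.hom P.X}

/-- Q1 for `X` in the codimension `i`: with `n = dim X` the map
`λ ^ (n + 1 - 2 i) : Ch ^ i (X) ^ 0 → Ch ^ (n + 1 - i) (X) ^ 0` is bijective. -/
def LefschetzIn (P : Pol T) (i : ℕ) : Prop :=
  Set.BijOn (fun x => P.lam ^ (P.dim + 1 - 2 * i) * x) (chow0 P i) (chow0 P (P.dim + 1 - i))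

/-- The classes `x` in `Ch ^ i (X) ^ 0` with `λ ^ (n + 2 - 2 i) x = 0`, `n = dim X`. -/
def IsPrimitive (P : Pol T) (i : ℕ) (x : T.Ch P.X) : Prop :=
  x ∈ chow0 P i ∧ P.lam ^ (P.dim + 1 - 2 * i + 1) * x = 0

/-- The form `(-1) ^ i (x, λ ^ (n + 1 - 2 i) y)`, `n = dim X`. -/
noncomputable def hform (P : Pol T) (i : ℕ) (x y : T.Ch P.X) : ℝ :=
  (-1) ^ i * T.ht P.X x (P.lam ^ (P.dim + 1 - 2 * i) * y)

/-- Q2 for `X` in the codimension `i`. -/
def IndexIn (P : Pol T) (i : ℕ) : Prop :=
  ∀ x, IsPrimitive P i x → x ≠ 0 → 0 < hform P i x x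

/-- There are `r` pairwise orthogonal primitive classes of codimension `i` with
`s (-1) ^ i (x, λ ^ (n + 1 - 2 i) x) > 0`. -/
def HasSquares (P : Pol T) (i : ℕ) (s : ℝ) (r : ℕ) : Prop :=
  ∃ x : Fin r → T.Ch P.X, (∀ a, IsPrimitive P i (x a)) ∧ (∀ a, 0 < s * hform P i (x a) (x a)) ∧
    ∀ a b, a ≠ b → hform P i (x a) (x b) = 0

/-- The number of the sequences `c₁, …, c_t` of integers `0 ≤ c_i ≤ n` with sum `q - j` and
`c_i + 2 (j + c₁ + ⋯ + c_(i - 1)) ≤ d + (i - 1) n`. This is the multiplicity of the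
irreducible representation of `sl₂` of highest weight `d + n t - 2 q` in
`V_(d - 2 j) ⊗ V_n ⊗ ⋯ ⊗ V_n`. -/
def ways (n d j : ℕ) : ℕ → ℕ → ℕ
  | 0, q => if q = j then 1 else 0
  | t + 1, q => ∑ c ∈ (range (min n q + 1)).filter (fun c => c + 2 * (q - c) ≤ d + n * t),
      ways n d j t (q - c)

/-- For the pairs in `A`: Q1 for all of them and all codimensions is equivalent to Q1 in the
codimension `m` for those of dimension `2 m`, `m` in `D`. -/
def MiddleLefschetz (A : Set (Pol T)) (D : Set ℕ) : Prop :=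
  (∀ R ∈ A, ∀ m ∈ D, R.dim = 2 * m → LefschetzIn R m) ↔
    ∀ Q ∈ A, ∀ j, 2 * j ≤ Q.dim + 1 → LefschetzIn Q j

/-- For the pairs in `A`: Q2 for all of them and all codimensions is equivalent to Q2 in the
codimension `m` for those of dimension `2 m - 1`, `m` in `D`. -/
def MiddleIndex (A : Set (Pol T)) (D : Set ℕ) : Prop :=
  (∀ R ∈ A, ∀ m ∈ D, R.dim + 1 = 2 * m → IndexIn R m) ↔
    ∀ Q ∈ A, ∀ j, 2 * j ≤ Q.dim + 1 → IndexIn Q j

/-- What follows in the codimension `j` of `Q` from Q2 in the codimension `q` of `R`: Q2, and an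
inequality between the numbers of squares. -/
def Descends (R : Pol T) (q : ℕ) (Q : Pol T) (j : ℕ) : Prop :=
  (IndexIn R q → IndexIn Q j) ∧ ∀ s r, HasSquares Q j s r → HasSquares R q s r

/-- From the codimension `q` of the product of the members of `l` and `Q` to the codimension `j` of
`Q`: Q1, Q2 and the numbers of squares. -/
def FromProduct (l : List (Pol T)) (Q : Pol T) (j q : ℕ) : Prop :=
  (2 * q ≤ Q.dim + dims l → (∀ P ∈ l, q + j + P.dim ≤ Q.dim + dims l) →
    LefschetzIn (prodL l Q) q → LefschetzIn Q j) ∧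
  (2 * q ≤ Q.dim + dims l + 1 → (∀ P ∈ l, q + j + P.dim ≤ Q.dim + dims l + 1) →
    Descends (prodL l Q) q Q j)

/-- From the codimension `q` of the power with `s + t + 1` factors to the codimension `j` of the
power with `s + 1` factors. -/
def FromPower (P : Pol T) (s t j q : ℕ) : Prop :=
  (2 * q ≤ (s + t + 1) * P.dim → LefschetzIn (power P (s + t)) q →
    LefschetzIn (power P s) j) ∧
  (2 * q ≤ (s + t + 1) * P.dim + 1 → Descends (power P (s + t)) q (power P s) j)

/-- Q1 for the powers with `r + 1` factors in the codimension `q` for the pairs `(r, q)` in `S`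
is equivalent to Q1 for all powers and codimensions. -/
def SetLefschetz (P : Pol T) (S : Set (ℕ × ℕ)) : Prop :=
  (∀ x ∈ S, LefschetzIn (power P x.1) x.2) ↔
    ∀ r j, 2 * j ≤ (power P r).dim + 1 → LefschetzIn (power P r) j

/-- Q2 for the powers with `r + 1` factors in the codimension `q` for the pairs `(r, q)` in `S`
is equivalent to Q2 for all powers and codimensions. -/
def SetIndex (P : Pol T) (S : Set (ℕ × ℕ)) : Prop :=
  (∀ x ∈ S, IndexIn (power P x.1) x.2) ↔
    ∀ r j, 2 * j ≤ (power P r).dim + 1 → IndexIn (power P r) j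

/-- The number of squares of the sign `s` in the codimension `q` of `P × Q` is at least the sum of
the numbers in the codimensions `q - c` of `Q`, over `c ≤ min(dim P, q)` with
`c + 2 (q - c) ≤ dim Q + 1`. -/
def Superadditive (P Q : Pol T) (s : ℝ) : Prop :=
  ∀ (q : ℕ) (r : ℕ → ℕ),
    (∀ c ≤ min P.dim q, c + 2 * (q - c) ≤ Q.dim + 1 → HasSquares Q (q - c) s (r c)) →
    HasSquares (P.prod Q) q s (∑ c ∈ (range (min P.dim q + 1)).filter
      (fun c => c + 2 * (q - c) ≤ Q.dim + 1), r c)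

/-- The number of squares of the sign `s` in the codimension `q` of `P ^ t × Q` is at least `ways`
times the number in the codimension `j` of `Q`. -/
def Multiplied (P Q : Pol T) (s : ℝ) : Prop :=
  ∀ j r t q, HasSquares Q j s r →
    HasSquares (prodL (List.replicate t P) Q) q s (ways P.dim (Q.dim + 1) j t q * r)

end Pool.Agent.Run7.h384.AB
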