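import Pool.Agent.Run7.h384.AB.HtMain

/-!
# Powers
-/

set_option autoImplicit false

open Finset

universe u v

namespace Pool.Agent.Run7.h384.AB

variable {T : HeightTheory.{u, v}}

lemma dims_replicate (P : Pol T) (t : ℕ) : dims (List.replicate t P) = t * P.dim := by
  simp [dims]

lemma power_dim (P : Pol T) (r : ℕ) : (power P r).dim = (r + 1) * P.dim := by
  rw [power, prodL_dim, dims_replicate]; ring

lemma power_add (P : Pol T) (s t : ℕ) :
    power P (s + t) = prodL (List.replicate t P) (power P s) := by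
  rw [power, power, prodL, prodL, prodL, ← List.foldr_append, List.replicate_append_replicate,
    add_comm s t]

theorem lefschetz_power {P : Pol T} (hP : Positive P) {s t j q : ℕ} (ht : 2 ≤ t)
    (hj : 2 * j ≤ (s + 1) * P.dim + 1) (h1 : j ≤ q) (h2 : 2 * q ≤ (s + t + 1) * P.dim)
    (h3 : q ≤ j + t * P.dim) (h : LefschetzIn (power P (s + t)) q) :
    LefschetzIn (power P s) j := by
  rw [power_add] at h
  have e1 : (s + t + 1) * P.dim = (s + 1) * P.dim + t * P.dim := by ring
  rw [e1] at h2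
  have e2 : 2 * P.dim ≤ t * P.dim := Nat.mul_le_mul_right _ ht
  refine lefschetz_list (fun P' hP' => by rwa [List.eq_of_mem_replicate hP']) ?_ h1 ?_ ?_ ?_ h
  · rwa [power_dim]
  · rwa [dims_replicate]
  · rwa [power_dim, dims_replicate]
  · intro P' hP'
    rw [List.eq_of_mem_replicate hP', power_dim, dims_replicate]
    omega

theorem index_power {P : Pol T} (hP : Positive P) {s t j q : ℕ} (ht : 2 ≤ t)
    (hj : 2 * j ≤ (s + 1) * P.dim + 1) (h1 : j ≤ q) (h2 : 2 * q ≤ (s + t + 1) * P.dim + 1)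
    (h3 : q ≤ j + t * P.dim) :
    Descends (power P (s + t)) q (power P s) j := by
  rw [power_add]
  have e1 : (s + t + 1) * P.dim = (s + 1) * P.dim + t * P.dim := by ring
  rw [e1] at h2
  have e2 : 2 * P.dim ≤ t * P.dim := Nat.mul_le_mul_right _ ht
  refine index_list (fun P' hP' => by rwa [List.eq_of_mem_replicate hP']) ?_ h1 ?_ ?_ ?_
  · rwa [power_dim]
  · rwa [dims_replicate]
  · rwa [power_dim, dims_replicate]
  · intro P' hP'
    rw [List.eq_of_mem_replicate hP', power_dim, dims_replicate]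
    omega

/-- Q1 and Q2 for all powers and codimensions follow from one codimension of infinitely many
powers. -/
theorem powers_iff {P : Pol T} (hP : Positive P) {S : Set (ℕ × ℕ)}
    (hS : ∀ x ∈ S, 2 * x.2 ≤ (x.1 + 1) * P.dim) (hS' : ∀ N, ∃ x ∈ S, N ≤ x.1 ∧ N ≤ x.2) :
    SetLefschetz P S ∧ SetIndex P S := by
  have key : ∀ r j, 2 * j ≤ (power P r).dim + 1 → ∃ x ∈ S, ∃ t, x.1 = r + t ∧ 2 ≤ t ∧
      2 * j ≤ (r + 1) * P.dim + 1 ∧ j ≤ x.2 ∧ 2 * x.2 ≤ (r + t + 1) * P.dim ∧
      x.2 ≤ j + t * P.dim := by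
    intro r j hj
    rw [power_dim] at hj
    obtain ⟨x, hx, h1, h2⟩ := hS' (2 * r + 2 + j)
    have h3 := hS x hx
    obtain ⟨t, ht⟩ : ∃ t, x.1 = r + t := ⟨x.1 - r, by omega⟩
    rw [ht] at h1 h3
    have h4 : (r + t + 1) * P.dim ≤ (2 * t) * P.dim := Nat.mul_le_mul_right _ (by omega)
    have h5 : 2 * t * P.dim = 2 * (t * P.dim) := by ring
    exact ⟨x, hx, t, ht, by omega, hj, by omega, h3, by omega⟩
  refine ⟨⟨fun h r j hj => ?_, fun h x hx => ?_⟩, ⟨fun h r j hj => ?_, fun h x hx => ?_⟩⟩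
  · obtain ⟨x, hx, t, ht, h1, h2, h3, h4, h5⟩ := key r j hj
    have h6 := h x hx
    rw [ht] at h6
    exact lefschetz_power hP h1 h2 h3 h4 h5 h6
  · exact h x.1 x.2 (by rw [power_dim]; have := hS x hx; omega)
  · obtain ⟨x, hx, t, ht, h1, h2, h3, h4, h5⟩ := key r j hj
    have h6 := h x hx
    rw [ht] at h6
    exact (index_power hP h1 h2 h3 (by omega) h5).1 h6
  · exact h x.1 x.2 (by rw [power_dim]; have := hS x hx; omega)

/-- Superadditivity of the numbers of squares. -/
theorem squares_prod {P : Pol T} (Q : Pol T) (hP : Positive P) (s : ℝ) :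
    Superadditive P Q s := by
  intro q r h
  rw [squares_iff]
  apply (stepOf P Q hP).sq
  · intro c hc
    rw [mem_filter, mem_range] at hc
    change _ ∧ _ ∧ _ ≤ Q.dim + 1
    omega
  · intro c hc
    rw [mem_filter, mem_range] at hc
    rw [← squares_iff]
    exact h c (by omega) hc.2

theorem squares_ways {P : Pol T} (Q : Pol T) (hP : Positive P) (s : ℝ) : Multiplied P Q s := by
  intro j r t q h
  induction t generalizing q with
  | zero =>
    rw [ways]
    by_cases hq : q = j
    · rw [if_pos hq, one_mul, hq]; exact h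
    · rw [if_neg hq, zero_mul]
      exact ⟨fun i => i.elim0, fun i => i.elim0, fun i => i.elim0, fun i => i.elim0⟩
  | succ t ih =>
    rw [ways, Finset.sum_mul, List.replicate_succ]
    have hd : (prodL (List.replicate t P) Q).dim = Q.dim + P.dim * t := by
      rw [prodL_dim, dims_replicate, mul_comm]
    have h1 := squares_prod (prodL (List.replicate t P) Q) hP s q
      (fun c => ways P.dim (Q.dim + 1) j t (q - c) * r) (fun c _ _ => ih (q - c))
    rw [hd] at h1
    have e : ∀ c, (c + 2 * (q - c) ≤ Q.dim + P.dim * t + 1) =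
        (c + 2 * (q - c) ≤ Q.dim + 1 + P.dim * t) := fun c => by
      rw [show Q.dim + P.dim * t + 1 = Q.dim + 1 + P.dim * t by ring]
    simp only [e] at h1
    exact h1

lemma prodL_mem {P : Pol T} {A : Set (Pol T)} (hA : ∀ Q ∈ A, P.prod Q ∈ A) {Q : Pol T}
    (hQ : Q ∈ A) (t : ℕ) : prodL (List.replicate t P) Q ∈ A := by
  induction t with
  | zero => exact hQ
  | succ t ih => exact hA _ ih

/-- Products with a curve: the middle codimension suffices. -/
theorem middle_iff {P : Pol T} (hP : Positive P) (hdim : P.dim = 1) {A : Set (Pol T)}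
    (hA : ∀ Q ∈ A, P.prod Q ∈ A) {D : Set ℕ} (hD : ∀ N, ∃ m ∈ D, N ≤ m) :
    MiddleLefschetz A D ∧ MiddleIndex A D := by
  refine ⟨⟨fun h Q hQ j hj => ?_, fun h R hR m _ hRm => h R hR m (by omega)⟩,
    ⟨fun h Q hQ j hj => ?_, fun h R hR m _ hRm => h R hR m (by omega)⟩⟩
  · obtain ⟨m, hm, hN⟩ := hD (Q.dim + 2)
    obtain ⟨t, ht⟩ : ∃ t, Q.dim + t = 2 * m := ⟨2 * m - Q.dim, by omega⟩
    have hd : dims (List.replicate t P) = t := by rw [dims_replicate, hdim, mul_one]
    have h1 := h _ (prodL_mem hA hQ t) m hm (by rw [prodL_dim, hd, ht])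
    refine lefschetz_list (fun P' hP' => by rwa [List.eq_of_mem_replicate hP']) hj ?_ ?_ ?_ ?_ h1
    · omega
    · rw [hd]; omega
    · rw [hd]; omega
    · intro P' hP'
      rw [List.eq_of_mem_replicate hP', hd, hdim]; omega
  · obtain ⟨m, hm, hN⟩ := hD (Q.dim + 2)
    obtain ⟨t, ht⟩ : ∃ t, Q.dim + t + 1 = 2 * m := ⟨2 * m - Q.dim - 1, by omega⟩
    have hd : dims (List.replicate t P) = t := by rw [dims_replicate, hdim, mul_one]
    have h1 := h _ (prodL_mem hA hQ t) m hm (by rw [prodL_dim, hd, ht])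
    refine (index_list (fun P' hP' => by rwa [List.eq_of_mem_replicate hP']) hj ?_ ?_ ?_ ?_).1 h1
    · omega
    · rw [hd]; omega
    · rw [hd]; omega
    · intro P' hP'
      rw [List.eq_of_mem_replicate hP', hd, hdim]; omega

end Pool.Agent.Run7.h384.AB
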