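import Pool.Agent.Run7.h384.AB.Dual
import Pool.Agent.Run7.h384.HG.Geo

/-!
# Positivity
-/

set_option autoImplicit false

open Finset Module

universe u

namespace Pool.Agent.Run7.h384.AB

open Pool.Agent.Run7.h384.HG

/-- The form `(-1) ^ j F(v, L ^ (h - 2 j) w)` on degree `j`. -/
noncomputable def pair (M : LMod.{u}) (j : ℕ) (v w : M.V) : ℝ :=
  (-1) ^ j * M.F v ((M.L ^ (M.h - 2 * j)) w)

/-- Primitive elements of degree `j`. -/
def IsPrim (M : LMod.{u}) (j : ℕ) (v : M.V) : Prop :=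
  v ∈ M.G j ∧ (M.L ^ (M.h - 2 * j + 1)) v = 0

/-- The form is positive on the nonzero primitive elements of degree `j`. -/
def Pos (M : LMod.{u}) (j : ℕ) : Prop := ∀ v, IsPrim M j v → v ≠ 0 → 0 < pair M j v v

/-- There are `r` pairwise orthogonal primitive elements with `s ⟨v, v⟩ > 0`. -/
def Sq (M : LMod.{u}) (j : ℕ) (s : ℝ) (r : ℕ) : Prop :=
  ∃ z : Fin r → M.V, (∀ i, IsPrim M j (z i)) ∧ (∀ i, 0 < s * pair M j (z i) (z i)) ∧
    ∀ i i', i ≠ i' → pair M j (z i) (z i') = 0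

variable {M M' : LMod.{u}} {n : ℕ}

lemma adj_pow (x y : M.V) (k : ℕ) : M.F ((M.L ^ k) x) y = M.F x ((M.L ^ k) y) := by
  induction k generalizing x y with
  | zero => rfl
  | succ k ih =>
    rw [pow_succ', Module.End.mul_apply, M.adj, ih, ← Module.End.mul_apply, ← pow_succ, pow_succ']

/-- The transferred element. -/
def Step.T (S : Step M M' n) (l c : ℕ) (v : M.V) : M'.V := low (S.toW.bb v) n l c

lemma Step.F_bb (S : Step M M' n) (v v' : M.V) (s t s' t' : ℕ) :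
    M'.F (S.toW.bb v s t) (S.toW.bb v' s' t') =
      if s + s' = n then (S.δ : ℝ) * M.F v ((M.L ^ (t + t')) v') else 0 := by
  have h1 := S.FB s s' ((M.L ^ t) v) ((M.L ^ t') v')
  rw [adj_pow, ← Module.End.mul_apply, ← pow_add] at h1
  exact h1

lemma Step.F_low_high (S : Step M M' n) {v v' : M.V} {m m' c c' : ℕ}
    (hc2 : c' ≤ n) (hc' : c' ≤ m') (h0 : M.F v ((M.L ^ (c + m' - c')) v') = 0) :
    M'.F (low (S.toW.bb v) n m c) (high (S.toW.bb v') n m' c') = 0 := by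
  rw [low, high, map_sum M'.F, LinearMap.sum_apply]
  apply Finset.sum_eq_zero
  intro a ha
  rw [mem_range] at ha
  rw [map_sum]
  apply Finset.sum_eq_zero
  intro b hb
  rw [mem_range] at hb
  rw [map_zsmul, map_zsmul, LinearMap.smul_apply, S.F_bb]
  by_cases hab : a = b
  · subst hab
    rw [show c - a + (m' - c' + a) = c + m' - c' by omega, h0, mul_zero, ite_self, smul_zero,
      smul_zero]
  · rw [if_neg (by omega), smul_zero, smul_zero]

lemma Step.F_low_high' (S : Step M M' n) {v v' : M.V} {m c : ℕ} (hc : c ≤ n) (hc' : c ≤ m) :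
    M'.F (low (S.toW.bb v) n m c) (high (S.toW.bb v') n m c) =
      ((∑ a ∈ range (c + 1), c.choose a * ((n - a).factorial * (m - c + a).factorial) : ℕ) : ℝ) *
        ((S.δ : ℝ) * M.F v ((M.L ^ m) v')) := by
  rw [low, high, map_sum M'.F, LinearMap.sum_apply, Nat.cast_sum, Finset.sum_mul]
  apply Finset.sum_congr rfl
  intro a ha
  have ha' : a ≤ c := by rw [mem_range] at ha; omega
  rw [map_sum, Finset.sum_eq_single a]
  · rw [map_zsmul, map_zsmul, LinearMap.smul_apply, S.F_bb, if_pos (by omega),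
      show c - a + (m - c + a) = m by omega, smul_smul, co, zsmul_eq_mul]
    have h2 : ((-1 : ℤ) ^ a * ((-1 : ℤ) ^ a *
        ((c.choose a * ((n - a).factorial * (m - c + a).factorial) : ℕ) : ℤ))) =
        ((c.choose a * ((n - a).factorial * (m - c + a).factorial) : ℕ) : ℤ) := by
      rw [← mul_assoc, ← pow_add, ← two_mul, pow_mul]
      norm_num
    rw [h2, Int.cast_natCast]
  · intro b hb hab
    rw [mem_range] at hb
    rw [map_zsmul, map_zsmul, LinearMap.smul_apply, S.F_bb, if_neg (by omega), smul_zero,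
      smul_zero]
  · intro h; exact absurd ha h

/-- The properties of the transferred elements. -/
theorem Step.spec (S : Step M M' n) {j c : ℕ} (hc : c ≤ n) (hc' : c + 2 * j ≤ M.h)
    {z z' : M.V} (hz : IsPrim M j z) (hz' : IsPrim M j z') :
    IsPrim M' (j + c) (S.T (M.h - 2 * j) c z) ∧ (S.T (M.h - 2 * j) c z = 0 → z = 0) ∧
    pair M' (j + c) (S.T (M.h - 2 * j) c z) (S.T (M.h - 2 * j) c z') =
      ((kap n (M.h - 2 * j) c : ℝ) * (S.δ : ℝ)) * pair M j z z' := by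
  have hh := S.hh
  have hM : M'.h - 2 * (j + c) = n + (M.h - 2 * j) - 2 * c := by omega
  have hcm : c ≤ M.h - 2 * j := by omega
  obtain ⟨e1, e2⟩ := S.toW.pow_low hz.2 hc hcm
  obtain ⟨f1, f2⟩ := S.toW.pow_low hz'.2 hc hcm
  refine ⟨⟨S.toW.low_mem hz.1, ?_⟩, fun h0 => ?_, ?_⟩
  · rw [hM, pow_succ', Module.End.mul_apply, Step.T, e1, map_zsmul, e2, smul_zero]
  · have h1 := congrArg (S.R (n - c)) h0
    rw [Step.T, low, map_sum, map_zero, Finset.sum_eq_single c] at h1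
    · rw [map_zsmul, WStep.bb, Nat.sub_self, pow_zero, Module.End.one_apply] at h1
      have h2 : S.R (n - c) (S.toW.B c z) = S.δ • z := by
        change S.R (n - c) (S.B c z) = _
        rw [S.RB, if_pos (by omega)]
      rw [h2, ← Int.cast_smul_eq_zsmul ℚ, smul_smul, smul_eq_zero] at h1
      refine h1.resolve_left (mul_ne_zero ?_ S.δ_pos.ne')
      rw [Int.cast_ne_zero, co]
      exact mul_ne_zero (pow_ne_zero _ (by norm_num)) (by
        rw [Nat.choose_self]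
        exact_mod_cast (Nat.mul_pos one_pos (Nat.mul_pos (Nat.factorial_pos _)
          (Nat.factorial_pos _))).ne')
    · intro a ha hac
      rw [mem_range] at ha
      rw [map_zsmul]
      have h2 : S.R (n - c) (S.toW.bb z a (c - a)) = 0 := by
        change S.R (n - c) (S.B a _) = _
        rw [S.RB, if_neg (by omega)]
      rw [h2, smul_zero]
    · intro h; exact absurd (by simp) h
  · rw [pair, pair, hM, Step.T, Step.T, f1, map_zsmul, S.F_low_high' hc hcm, pow_add, kap,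
      zsmul_eq_mul]
    have h3 : (-1 : ℝ) ^ c * (-1) ^ c = 1 := by
      rw [← pow_add, ← two_mul, pow_mul]; norm_num
    push_cast
    linear_combination ((-1 : ℝ) ^ j * ((c.factorial : ℝ) *
      ((n + (M.h - 2 * j) - 2 * c).factorial : ℝ)) *
      (∑ a ∈ range (c + 1), (c.choose a : ℝ) * (((n - a).factorial : ℝ) *
        ((M.h - 2 * j - c + a).factorial : ℝ))) *
      ((S.δ : ℝ) * M.F z ((M.L ^ (M.h - 2 * j)) z'))) * h3

lemma prim_zero {j j' : ℕ} {z z' : M.V} (hj : 2 * j ≤ M.h) (hj' : 2 * j' ≤ M.h)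
    (hz : IsPrim M j z) (hz' : IsPrim M j' z') (hne : j ≠ j') :
    M.F z ((M.L ^ (M.h - j - j')) z') = 0 := by
  rcases Nat.lt_or_gt_of_ne hne with h | h
  · rw [show M.h - j - j' = (j' - j - 1) + (M.h - 2 * j' + 1) by omega, pow_add,
      Module.End.mul_apply, hz'.2, map_zero, map_zero]
  · rw [← adj_pow, show M.h - j - j' = (j - j' - 1) + (M.h - 2 * j + 1) by omega, pow_add,
      Module.End.mul_apply, hz.2, map_zero, map_zero, LinearMap.zero_apply]

lemma Step.orth (S : Step M M' n) {j j' c c' q : ℕ} (hj : 2 * j ≤ M.h) (hj' : 2 * j' ≤ M.h)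
    (hq : j + c = q) (hq' : j' + c' = q) (hc : c ≤ n) (hc' : c' ≤ n)
    (hd : c + 2 * j ≤ M.h) (hd' : c' + 2 * j' ≤ M.h) (hne : j ≠ j') {z z' : M.V}
    (hz : IsPrim M j z) (hz' : IsPrim M j' z') :
    pair M' q (S.T (M.h - 2 * j) c z) (S.T (M.h - 2 * j') c' z') = 0 := by
  have hh := S.hh
  have hM : M'.h - 2 * q = n + (M.h - 2 * j') - 2 * c' := by omega
  obtain ⟨f1, f2⟩ := S.toW.pow_low hz'.2 hc' (by omega)
  rw [pair, hM, Step.T, Step.T, f1, map_zsmul, S.F_low_high hc' (by omega) (by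
    rw [show c + (M.h - 2 * j') - c' = M.h - j - j' by omega]
    exact prim_zero hj hj' hz hz' hne), smul_zero, mul_zero]

lemma Sq.of_fintype {j : ℕ} {s : ℝ} {ι : Type*} [Fintype ι] (z : ι → M.V)
    (h1 : ∀ i, IsPrim M j (z i)) (h2 : ∀ i, 0 < s * pair M j (z i) (z i))
    (h3 : ∀ i i', i ≠ i' → pair M j (z i) (z i') = 0) : Sq M j s (Fintype.card ι) :=
  ⟨fun i => z ((Fintype.equivFin ι).symm i), fun _ => h1 _, fun _ => h2 _, fun _ _ h =>
    h3 _ _ fun h' => h ((Fintype.equivFin ι).symm.injective h')⟩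

/-- **Superadditivity.** -/
theorem Step.sq (S : Step M M' n) {q : ℕ} (s : ℝ) (A : Finset ℕ) (hA : ∀ c ∈ A, c ≤ n ∧ c ≤ q ∧
      c + 2 * (q - c) ≤ M.h) (r : ℕ → ℕ) (h : ∀ c ∈ A, Sq M (q - c) s (r c)) :
    Sq M' q s (∑ c ∈ A, r c) := by
  classical
  choose! z hz1 hz2 hz3 using h
  have hcard : Fintype.card ((c : A) × Fin (r c)) = ∑ c ∈ A, r c := by
    rw [Fintype.card_sigma]
    simp only [Fintype.card_fin]
    exact Finset.sum_coe_sort A r
  rw [← hcard]
  apply Sq.of_fintype (fun i : (c : A) × Fin (r c) => S.T (M.h - 2 * (q - i.1)) i.1 (z i.1 i.2))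
  · rintro ⟨⟨c, hc⟩, i⟩
    obtain ⟨a1, a2, a3⟩ := hA c hc
    have h1 := (S.spec a1 a3 (hz1 c hc i) (hz1 c hc i)).1
    rwa [Nat.sub_add_cancel a2] at h1
  · rintro ⟨⟨c, hc⟩, i⟩
    obtain ⟨a1, a2, a3⟩ := hA c hc
    have h1 := (S.spec a1 a3 (hz1 c hc i) (hz1 c hc i)).2.2
    rw [Nat.sub_add_cancel a2] at h1
    simp only
    rw [h1, mul_left_comm]
    exact mul_pos (mul_pos (by exact_mod_cast kap_pos _ _ c) (by exact_mod_cast S.δ_pos))
      (hz2 c hc i)
  · rintro ⟨⟨c, hc⟩, i⟩ ⟨⟨c', hc'⟩, i'⟩ hne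
    obtain ⟨a1, a2, a3⟩ := hA c hc
    obtain ⟨b1, b2, b3⟩ := hA c' hc'
    by_cases hcc : c = c'
    · subst hcc
      have hii : i ≠ i' := fun h => hne (by rw [h])
      have h1 := (S.spec a1 a3 (hz1 c hc i) (hz1 c hc i')).2.2
      rw [Nat.sub_add_cancel a2, hz3 c hc i i' hii, mul_zero] at h1
      exact h1
    · exact S.orth (by omega) (by omega) (by omega) (by omega) a1 b1 a3 b3 (by omega)
        (hz1 c hc i) (hz1 c' hc' i')

/-- Transfers of the primitive elements. -/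
def Trans (M : LMod.{u}) (j : ℕ) (M' : LMod.{u}) (q : ℕ) : Prop :=
  ∃ (T : M.V → M'.V) (κ : ℝ), 0 < κ ∧ ∀ z z', IsPrim M j z → IsPrim M j z' →
    IsPrim M' q (T z) ∧ (T z = 0 → z = 0) ∧ pair M' q (T z) (T z') = κ * pair M j z z'

/-- **Several factors.** -/
theorem Chain.trans {ns : List ℕ} (h : Chain M ns M') {j q : ℕ} (hj : 2 * j ≤ M.h)
    (h1 : j ≤ q) (h2 : q ≤ j + ns.sum) (h3 : 2 * q ≤ M.h + ns.sum)
    (h4 : ∀ n ∈ ns, q + j + n ≤ M.h + ns.sum) : Trans M j M' q := by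
  induction h generalizing q with
  | nil =>
    obtain rfl : q = j := by simp only [List.sum_nil] at h2; omega
    exact ⟨id, 1, one_pos, fun _ _ hz _ => ⟨hz, id, (one_mul _).symm⟩⟩
  | @cons M' M'' ns n hc hS ih =>
    obtain ⟨S⟩ := hS
    rw [List.sum_cons] at h2 h3 h4
    have hP4 := h4 n (by simp)
    have hh := hc.toW.h_eq
    set c := min n (q - j) with hcdef
    obtain ⟨q', hq'⟩ : ∃ q', q = q' + c := ⟨q - c, by omega⟩
    obtain ⟨T, κ, hκ, hT⟩ := ih (q := q') (by omega) (by omega) (by omega) (fun n' hn' => by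
      have h6 := h4 n' (by simp [hn'])
      have h7 : n' ≤ ns.sum := List.single_le_sum (by simp) _ hn'
      omega)
    refine ⟨fun z => S.T (M'.h - 2 * q') c (T z), ((kap n (M'.h - 2 * q') c : ℝ) * (S.δ : ℝ)) * κ,
      mul_pos (mul_pos (by exact_mod_cast kap_pos _ _ c) (by exact_mod_cast S.δ_pos)) hκ,
      fun z z' hz hz' => ?_⟩
    obtain ⟨a1, a2, a3⟩ := hT z z' hz hz'
    obtain ⟨b1, b2, b3⟩ := S.spec (c := c) (by omega) (by omega) a1 (hT z' z' hz' hz').1
    rw [hq']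
    exact ⟨b1, fun h0 => a2 (b2 h0), by rw [b3, a3]; ring⟩

theorem Trans.pos {j q : ℕ} (h : Trans M j M' q) (hP : Pos M' q) : Pos M j := by
  obtain ⟨T, κ, hκ, hT⟩ := h
  intro v hv hv0
  obtain ⟨a1, a2, a3⟩ := hT v v hv hv
  have h1 := hP (T v) a1 (fun h0 => hv0 (a2 h0))
  rw [a3] at h1
  exact (mul_pos_iff_of_pos_left hκ).1 h1

theorem Trans.sq {j q : ℕ} (h : Trans M j M' q) {s : ℝ} {r : ℕ} (hS : Sq M j s r) :
    Sq M' q s r := by
  obtain ⟨T, κ, hκ, hT⟩ := h
  obtain ⟨z, h1, h2, h3⟩ := hS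
  refine ⟨fun i => T (z i), fun i => (hT _ _ (h1 i) (h1 i)).1, fun i => ?_, fun i i' hii => ?_⟩
  · rw [(hT _ _ (h1 i) (h1 i)).2.2, mul_left_comm]
    exact mul_pos hκ (h2 i)
  · rw [(hT _ _ (h1 i) (h1 i')).2.2, h3 i i' hii, mul_zero]

end Pool.Agent.Run7.h384.AB
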