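import Pool.Agent.Run7.h384.AB.HtDefs
import Pool.Agent.Run7.h384.AB.Pos

/-!
# Chow groups with height pairings
-/

set_option autoImplicit false

open Finset

universe u v

namespace Pool.Agent.Run7.h384.AB

variable {T : HeightTheory.{u, v}}

namespace HeightTheory

variable (T)

lemma one_mem (X : T.Var) : (1 : T.Ch X) ∈ T.gr X 0 := (T.isChowRing X).one_mem
lemma mul_mem {X : T.Var} {i j : ℕ} {a b : T.Ch X} (ha : a ∈ T.gr X i) (hb : b ∈ T.gr X j) :
    a * b ∈ T.gr X (i + j) := (T.isChowRing X).mul_mem i j a b ha hb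
lemma gr_eq_bot (X : T.Var) (i : ℕ) (h : T.dim X < i) : T.gr X i = ⊥ :=
  (T.isChowRing X).gr_eq_bot i h
lemma deg_eq_zero {X : T.Var} {i : ℕ} {a : T.Ch X} (ha : a ∈ T.gr X i) (hi : i ≠ T.dim X) :
    T.deg X a = 0 := (T.isChowRing X).deg_eq_zero i a ha hi
lemma hom_mul {X : T.Var} {a : T.Ch X} (ha : a ∈ T.hom X) (c : T.Ch X) : c * a ∈ T.hom X :=
  (T.isHomIdeal X).mul a ha c
lemma hom_internal (X : T.Var) :
    DirectSum.IsInternal fun i => (T.gr X i).comap (T.hom X).subtype :=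
  (T.isHomIdeal X).internal
lemma proj {X Y : T.Var} (a : T.Ch (T.prod X Y)) (b : T.Ch Y) :
    T.push X Y (T.p2 X Y b * a) = b * T.push X Y a := (T.isPush X Y).proj a b
lemma hom_pull {X Y : T.Var} {a : T.Ch Y} (ha : a ∈ T.hom Y) :
    T.p2 X Y a ∈ T.hom (T.prod X Y) := (T.keepsHom X Y).hom_pull a ha
lemma hom_push {X Y : T.Var} {a : T.Ch (T.prod X Y)} (ha : a ∈ T.hom (T.prod X Y)) :
    T.push X Y a ∈ T.hom Y := (T.keepsHom X Y).hom_push a ha
lemma push_mem {X Y : T.Var} {i : ℕ} {a : T.Ch (T.prod X Y)} (ha : a ∈ T.gr (T.prod X Y) i)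
    (hi : T.dim X ≤ i) : T.push X Y a ∈ T.gr Y (i - T.dim X) :=
  (T.isPush X Y).push_mem i a ha hi
lemma push_low {X Y : T.Var} {i : ℕ} {a : T.Ch (T.prod X Y)} (ha : a ∈ T.gr (T.prod X Y) i)
    (hi : i < T.dim X) : T.push X Y a = 0 := (T.isPush X Y).push_low i a ha hi
lemma push_fst {X Y : T.Var} (a : T.Ch X) :
    T.push X Y (T.p1 X Y a) = T.deg X a • 1 := (T.isPush X Y).push_fst a

end HeightTheory

/-- Multiplication by the class of the divisor on the classes homologous to zero. -/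
noncomputable def lop (P : Pol T) : T.hom P.X →ₗ[ℚ] T.hom P.X :=
  (LinearMap.mulLeft ℚ P.lam).restrict fun _ ha => T.hom_mul ha _

/-- The height pairing as a bilinear map. -/
noncomputable def htMap (X : T.Var) : T.hom X →ₗ[ℚ] T.hom X →ₗ[ℚ] ℝ :=
  LinearMap.mk₂ ℚ (fun a b => T.ht X (a : T.Ch X) (b : T.Ch X))
    (fun a b c => (T.isHeight X).add_left a a.2 b b.2 c c.2)
    (fun r a b => by
      rw [Rat.smul_def]
      exact (T.isHeight X).smul_left r a a.2 b b.2)
    (fun a b c => (T.isHeight X).add_right b b.2 c c.2 a a.2)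
    (fun r a b => by
      rw [Rat.smul_def]
      exact (T.isHeight X).smul_right r b b.2 a a.2)

lemma htMap_apply (X : T.Var) (a b : T.hom X) :
    htMap X a b = T.ht X (a : T.Ch X) (b : T.Ch X) := rfl

/-- The space of the classes homologous to zero. -/
@[reducible]
noncomputable def modOf (P : Pol T) : LMod.{v} where
  V := T.hom P.X
  G i := (T.gr P.X i).comap (T.hom P.X).subtype
  L := lop P
  h := P.dim + 1
  F := htMap P.X
  L_mem := by
    intro i v hv
    have := T.mul_mem P.lam_mem hv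
    rwa [add_comm] at this
  adj x y := (T.isHeight P.X).mul P.lam x x.2 y y.2

lemma lop_pow (P : Pol T) (m : ℕ) (x : T.hom P.X) :
    (((lop P) ^ m) x : T.Ch P.X) = P.lam ^ m * x := by
  induction m with
  | zero => rw [pow_zero, pow_zero, one_mul]; rfl
  | succ m ih =>
    rw [pow_succ', Module.End.mul_apply, pow_succ', mul_assoc, ← ih]
    rfl

lemma lam_pow (P : Pol T) (m : ℕ) : P.lam ^ m ∈ T.gr P.X m := by
  induction m with
  | zero => rw [pow_zero]; exact T.one_mem _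
  | succ m ih => rw [pow_succ]; exact T.mul_mem ih P.lam_mem

lemma lam_zero (P : Pol T) {m : ℕ} (hm : P.dim < m) : P.lam ^ m = 0 := by
  have := lam_pow P m
  rw [T.gr_eq_bot P.X m hm] at this
  exact (Submodule.mem_bot _).1 this

lemma push_prod {X Y : T.Var} (a : T.Ch X) (b : T.Ch Y) :
    T.push X Y (T.p1 X Y a * T.p2 X Y b) = T.deg X a • b := by
  rw [mul_comm, T.proj, T.push_fst, mul_smul_comm, mul_one]

/-- Products with the powers of the divisor. -/
noncomputable def extMap (P Q : Pol T) (s : ℕ) : T.hom Q.X →ₗ[ℚ] T.hom (T.prod P.X Q.X) :=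
  ((LinearMap.mulLeft ℚ (T.p1 P.X Q.X (P.lam ^ s))) ∘ₗ
    (T.p2 P.X Q.X).toLinearMap).restrict fun _ ha => T.hom_mul (T.hom_pull ha) _

/-- Push-forward of the products with the powers of the divisor. -/
noncomputable def retMap (P Q : Pol T) (s : ℕ) : T.hom (T.prod P.X Q.X) →ₗ[ℚ] T.hom Q.X :=
  (T.push P.X Q.X ∘ₗ
    LinearMap.mulLeft ℚ (T.p1 P.X Q.X (P.lam ^ s))).restrict
      fun _ ha => T.hom_push (T.hom_mul ha _)

lemma extMap_coe (P Q : Pol T) (s : ℕ) (y : T.hom Q.X) : (extMap P Q s y : T.Ch _) =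
    T.p1 P.X Q.X (P.lam ^ s) * T.p2 P.X Q.X y := rfl

lemma retMap_coe (P Q : Pol T) (s : ℕ) (w : T.hom (T.prod P.X Q.X)) :
    (retMap P Q s w : T.Ch _) =
      T.push P.X Q.X (T.p1 P.X Q.X (P.lam ^ s) * w) := rfl

lemma lop_prod_coe (P Q : Pol T) (w : T.hom (T.prod P.X Q.X)) :
    (((lop (P.prod Q)) w : T.hom (T.prod P.X Q.X)) : T.Ch (T.prod P.X Q.X)) =
      (T.p1 P.X Q.X P.lam + T.p2 P.X Q.X Q.lam) * w := rfl

/-- The product with a polarized variety. -/
noncomputable def stepOf (P Q : Pol T) (hP : Positive P) :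
    Step (modOf Q) (modOf (P.prod Q)) P.dim where
  B := extMap P Q
  R := retMap P Q
  δ := T.deg P.X (P.lam ^ P.dim)
  δ_pos := hP
  LB s y := by
    apply Subtype.ext
    change (T.p1 P.X Q.X P.lam + T.p2 P.X Q.X Q.lam) *
        (T.p1 P.X Q.X (P.lam ^ s) * T.p2 P.X Q.X (y : T.Ch Q.X)) =
      T.p1 P.X Q.X (P.lam ^ (s + 1)) * T.p2 P.X Q.X (y : T.Ch Q.X) +
        T.p1 P.X Q.X (P.lam ^ s) * T.p2 P.X Q.X (Q.lam * (y : T.Ch Q.X))
    rw [pow_succ, map_mul (T.p1 P.X Q.X), map_mul (T.p2 P.X Q.X)]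
    ring
  LR s w := by
    apply Subtype.ext
    change T.push P.X Q.X (T.p1 P.X Q.X (P.lam ^ s) *
        ((T.p1 P.X Q.X P.lam + T.p2 P.X Q.X Q.lam) * (w : T.Ch (T.prod P.X Q.X)))) =
      T.push P.X Q.X (T.p1 P.X Q.X (P.lam ^ (s + 1)) * (w : T.Ch (T.prod P.X Q.X))) +
        Q.lam * T.push P.X Q.X (T.p1 P.X Q.X (P.lam ^ s) *
          (w : T.Ch (T.prod P.X Q.X)))
    rw [pow_succ, map_mul (T.p1 P.X Q.X), ← T.proj, ← map_add (T.push P.X Q.X)]
    congr 1
    ring
  B_zero s hs := by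
    apply LinearMap.ext
    intro y
    apply Subtype.ext
    rw [extMap_coe, lam_zero P hs, map_zero, zero_mul]
    rfl
  R_zero s hs := by
    apply LinearMap.ext
    intro y
    apply Subtype.ext
    rw [retMap_coe, lam_zero P hs, map_zero, zero_mul, map_zero]
    rfl
  RB s t y := by
    apply Subtype.ext
    rw [retMap_coe, extMap_coe, ← mul_assoc, ← map_mul, ← pow_add, push_prod]
    split_ifs with h
    · rw [h]; rfl
    · rw [T.deg_eq_zero (lam_pow P (s + t)) h, zero_smul]; rfl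
  B_mem s i y hy := by
    have := T.mul_mem (T.p1_mem P.X Q.X s _ (lam_pow P s)) (T.p2_mem P.X Q.X i _ hy)
    rwa [add_comm] at this
  R_mem s i w hw hn := by
    have h1 := T.mul_mem (T.p1_mem P.X Q.X s _ (lam_pow P s)) hw
    have h2 := T.push_mem h1 (by change P.dim ≤ s + i; omega)
    rwa [add_comm s i] at h2
  R_low s i w hw hn := by
    have h1 := T.mul_mem (T.p1_mem P.X Q.X s _ (lam_pow P s)) hw
    apply Subtype.ext
    exact T.push_low h1 (by change s + i < P.dim; omega)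
  FB s t y y' := by
    have h1 := T.ht_prod P.X Q.X (P.lam ^ s) (P.lam ^ t) y y.2 y' y'.2
    rw [← pow_add] at h1
    split_ifs with h
    · rw [h] at h1
      exact h1
    · rw [T.deg_eq_zero (lam_pow P (s + t)) h, Rat.cast_zero, zero_mul] at h1
      exact h1
  hh := by
    change T.dim (T.prod P.X Q.X) + 1 = Q.dim + 1 + P.dim
    rw [T.dim_prod]
    change P.dim + Q.dim + 1 = Q.dim + 1 + P.dim
    ring

lemma chainOf (l : List (Pol T)) (Q : Pol T) (hl : ∀ P ∈ l, Positive P) :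
    Chain (modOf Q) (l.map fun P => P.dim) (modOf (prodL l Q)) := by
  induction l with
  | nil => exact Chain.nil _
  | cons P l ih =>
    exact Chain.cons (ih fun P' hP' => hl P' (by simp [hP'])) ⟨stepOf P _ (hl P (by simp))⟩

lemma lefschetz_iff (P : Pol T) {i : ℕ} (hi : 2 * i ≤ P.dim + 1) :
    LefschetzIn P i ↔ Inj (modOf P) i ∧ Surj (modOf P) i := by
  constructor
  · rintro ⟨-, h1, h2⟩
    refine ⟨fun x hx h0 => ?_, fun y hy => ?_⟩
    · apply Subtype.ext
      refine h1 ⟨hx, x.2⟩ ⟨(T.gr P.X i).zero_mem, (T.hom P.X).zero_mem⟩ ?_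
      change P.lam ^ _ * (x : T.Ch P.X) = P.lam ^ _ * 0
      rw [← lop_pow, mul_zero]
      exact congrArg Subtype.val h0
    · obtain ⟨x, hx, hxy⟩ := h2 (show (y : T.Ch P.X) ∈ chow0 P (P.dim + 1 - i) from ⟨hy, y.2⟩)
      refine ⟨⟨x, hx.2⟩, hx.1, ?_⟩
      apply Subtype.ext
      change (((lop P) ^ _) _ : T.Ch P.X) = y
      rw [lop_pow]
      exact hxy
  · rintro ⟨h1, h2⟩
    refine ⟨fun x hx => ⟨?_, T.hom_mul hx.2 _⟩, fun x hx x' hx' h0 => ?_, fun y hy => ?_⟩
    · have := T.mul_mem (lam_pow P (P.dim + 1 - 2 * i)) hx.1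
      rwa [show P.dim + 1 - 2 * i + i = P.dim + 1 - i by omega] at this
    · have h3 := h1 (⟨x, hx.2⟩ - ⟨x', hx'.2⟩) ((T.gr P.X i).sub_mem hx.1 hx'.1) (by
        apply Subtype.ext
        change (((lop P) ^ _) _ : T.Ch P.X) = _
        rw [lop_pow]
        change P.lam ^ _ * (x - x') = 0
        rw [mul_sub, sub_eq_zero]
        exact h0)
      exact sub_eq_zero.1 (congrArg Subtype.val h3)
    · obtain ⟨x, hx, hxy⟩ := h2 ⟨y, hy.2⟩ hy.1
      refine ⟨x, ⟨hx, x.2⟩, ?_⟩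
      have := congrArg Subtype.val hxy
      change P.lam ^ _ * (x : T.Ch P.X) = y
      rw [← lop_pow]
      exact this

lemma prim_iff (P : Pol T) (i : ℕ) (x : T.hom P.X) :
    IsPrimitive P i x ↔ IsPrim (modOf P) i x := by
  constructor
  · rintro ⟨⟨h1, -⟩, h2⟩
    refine ⟨h1, ?_⟩
    apply Subtype.ext
    change (((lop P) ^ _) _ : T.Ch P.X) = _
    rw [lop_pow]
    exact h2
  · rintro ⟨h1, h2⟩
    refine ⟨⟨h1, x.2⟩, ?_⟩
    rw [← lop_pow]
    exact congrArg Subtype.val h2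

lemma form_eq (P : Pol T) (i : ℕ) (x y : T.hom P.X) :
    hform P i x y = pair (modOf P) i x y := by
  rw [hform, pair, htMap_apply]
  congr 2
  change _ = (((lop P) ^ _) _ : T.Ch P.X)
  rw [lop_pow]

lemma index_iff (P : Pol T) (i : ℕ) : IndexIn P i ↔ Pos (modOf P) i := by
  constructor
  · intro h x hx h0
    rw [← form_eq]
    exact h x ((prim_iff P i x).2 hx) fun h1 => h0 (Subtype.ext h1)
  · intro h x hx h0
    have h1 := h ⟨x, hx.1.2⟩ ((prim_iff P i ⟨x, hx.1.2⟩).1 hx) fun h1 =>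
      h0 (congrArg Subtype.val h1)
    rwa [← form_eq] at h1

lemma squares_iff (P : Pol T) (i : ℕ) (s : ℝ) (r : ℕ) :
    HasSquares P i s r ↔ Sq (modOf P) i s r := by
  constructor
  · rintro ⟨x, h1, h2, h3⟩
    refine ⟨fun a => ⟨x a, (h1 a).1.2⟩, fun a => (prim_iff P i ⟨x a, (h1 a).1.2⟩).1 (h1 a),
      fun a => ?_, fun a b hab => ?_⟩
    · rw [← form_eq]; exact h2 a
    · rw [← form_eq]; exact h3 a b hab
  · rintro ⟨x, h1, h2, h3⟩
    refine ⟨fun a => x a, fun a => (prim_iff P i (x a)).2 (h1 a), fun a => ?_, fun a b hab => ?_⟩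
    · rw [form_eq]; exact h2 a
    · rw [form_eq]; exact h3 a b hab

lemma prodL_dim (l : List (Pol T)) (Q : Pol T) :
    (prodL l Q).dim = Q.dim + dims l := by
  induction l with
  | nil => simp [prodL, dims]
  | cons P l ih =>
    have h1 : (prodL (P :: l) Q).dim = P.dim + (prodL l Q).dim := T.dim_prod _ _
    rw [h1, ih]
    simp only [dims, List.map_cons, List.sum_cons]
    ring

/-- **Q1 in one codimension of a product.** -/
theorem lefschetz_list {l : List (Pol T)} {Q : Pol T} (hl : ∀ P ∈ l, Positive P) {j q : ℕ}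
    (h0 : 2 * j ≤ Q.dim + 1) (h1 : j ≤ q) (h2 : q ≤ j + dims l)
    (h3 : 2 * q ≤ Q.dim + dims l) (h4 : ∀ P ∈ l, q + j + P.dim ≤ Q.dim + dims l)
    (h : LefschetzIn (prodL l Q) q) : LefschetzIn Q j := by
  rw [lefschetz_iff _ (by rw [prodL_dim]; omega)] at h
  rw [lefschetz_iff _ h0]
  have hs : (l.map fun P => P.dim).sum = dims l := rfl
  refine (chainOf l Q hl).lefschetz (T.hom_internal Q.X)
    (T.hom_internal (prodL l Q).X).submodule_iSup_eq_top (q := q) h0 h1 (by rwa [hs]) ?_ ?_ h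
  · change 2 * q < Q.dim + 1 + _
    rw [hs]; omega
  · intro n hn
    obtain ⟨P, hP, rfl⟩ := List.mem_map.1 hn
    change _ < Q.dim + 1 + _
    have := h4 P hP
    rw [hs]; omega

/-- **Q2 in one codimension of a product.** -/
theorem trans_list {l : List (Pol T)} {Q : Pol T} (hl : ∀ P ∈ l, Positive P) {j q : ℕ}
    (h0 : 2 * j ≤ Q.dim + 1) (h1 : j ≤ q) (h2 : q ≤ j + dims l)
    (h3 : 2 * q ≤ Q.dim + dims l + 1)
    (h4 : ∀ P ∈ l, q + j + P.dim ≤ Q.dim + dims l + 1) :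
    Trans (modOf Q) j (modOf (prodL l Q)) q := by
  have hs : (l.map fun P => P.dim).sum = dims l := rfl
  refine (chainOf l Q hl).trans h0 h1 (by rwa [hs]) ?_ ?_
  · change 2 * q ≤ Q.dim + 1 + _
    rw [hs]; omega
  · intro n hn
    obtain ⟨P, hP, rfl⟩ := List.mem_map.1 hn
    change _ ≤ Q.dim + 1 + _
    have := h4 P hP
    rw [hs]; omega

theorem index_list {l : List (Pol T)} {Q : Pol T} (hl : ∀ P ∈ l, Positive P) {j q : ℕ}
    (h0 : 2 * j ≤ Q.dim + 1) (h1 : j ≤ q) (h2 : q ≤ j + dims l)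
    (h3 : 2 * q ≤ Q.dim + dims l + 1)
    (h4 : ∀ P ∈ l, q + j + P.dim ≤ Q.dim + dims l + 1) :
    Descends (prodL l Q) q Q j := by
  refine ⟨fun h => ?_, fun s r h => ?_⟩
  · rw [index_iff] at h ⊢
    exact (trans_list hl h0 h1 h2 h3 h4).pos h
  · rw [squares_iff] at h ⊢
    exact (trans_list hl h0 h1 h2 h3 h4).sq h

end Pool.Agent.Run7.h384.AB
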