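import Pool.Agent.Run7.h384.HG.Alg

/-!
# Graded spaces with a Lefschetz operator, and products with a string
-/

set_option autoImplicit false

open Finset Module

universe u

namespace Pool.Agent.Run7.h384.AB

open Pool.Agent.Run7.h384.HG

/-- A graded rational vector space with an operator `L` of degree one, a symmetry `i ↦ h - i` of the
degrees, and a form. -/
structure LMod where
  V : Type u
  [grp : AddCommGroup V]
  [mod : Module ℚ V]
  G : ℕ → Submodule ℚ V
  L : V →ₗ[ℚ] V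
  h : ℕ
  F : V →ₗ[ℚ] V →ₗ[ℚ] ℝ
  L_mem : ∀ {i : ℕ} {v : V}, v ∈ G i → L v ∈ G (i + 1)
  adj : ∀ x y, F (L x) y = F x (L y)

attribute [instance] LMod.grp LMod.mod

/-- The data for the transfer of strings from `M` to `M'`. -/
structure WStep (M M' : LMod.{u}) (n : ℕ) where
  B : ℕ → M.V →ₗ[ℚ] M'.V
  R : M'.V →ₗ[ℚ] M.V
  δ : ℚ
  δ_ne : δ ≠ 0
  LB : ∀ s v, M'.L (B s v) = B (s + 1) v + B s (M.L v)
  B_zero : ∀ s, n < s → B s = 0
  RB : ∀ t v, R (B t v) = if t = n then δ • v else 0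
  B_mem : ∀ s i v, v ∈ M.G i → B s v ∈ M'.G (i + s)
  hh : M'.h = M.h + n

/-- There is a string of length `l + 1` which begins in degree `a`. -/
def Str (M : LMod.{u}) (a l : ℕ) : Prop :=
  ∃ v ∈ M.G a, (M.L ^ l) v ≠ 0 ∧ (M.L ^ (l + 1)) v = 0

lemma LMod.pow_mem (M : LMod.{u}) {i : ℕ} {v : M.V} (hv : v ∈ M.G i) (k : ℕ) :
    (M.L ^ k) v ∈ M.G (i + k) := by
  induction k with
  | zero => exact hv
  | succ k ih =>
    rw [pow_succ', Module.End.mul_apply]
    exact M.L_mem ih

lemma iterate_eq (M : LMod.{u}) (k : ℕ) (v : M.V) :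
    (M.L.toAddMonoidHom)^[k] v = (M.L ^ k) v := by
  rw [Module.End.pow_apply]; rfl

section

variable {M M' : LMod.{u}} {n : ℕ}

/-- The products `ξ ^ s ⊠ L ^ t v`. -/
def WStep.bb (S : WStep M M' n) (v : M.V) (s t : ℕ) : M'.V := S.B s ((M.L ^ t) v)

lemma WStep.bb_L (S : WStep M M' n) (v : M.V) (s t : ℕ) :
    M'.L.toAddMonoidHom (S.bb v s t) = S.bb v (s + 1) t + S.bb v s (t + 1) := by
  rw [WStep.bb, WStep.bb, WStep.bb, pow_succ', Module.End.mul_apply]
  exact S.LB s _

lemma WStep.pow_low (S : WStep M M' n) {v : M.V} {l c : ℕ} (hv : (M.L ^ (l + 1)) v = 0)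
    (hc : c ≤ n) (hc' : c ≤ l) :
    (M'.L ^ (n + l - 2 * c)) (low (S.bb v) n l c) =
      ((-1 : ℤ) ^ c * ((c.factorial * (n + l - 2 * c).factorial : ℕ) : ℤ)) •
        high (S.bb v) n l c ∧ M'.L (high (S.bb v) n l c) = 0 := by
  have h1 : ∀ s t, n < s → S.bb v s t = 0 := by
    intro s t hs
    rw [WStep.bb, S.B_zero s hs, LinearMap.zero_apply]
  have h2 : ∀ s t, l < t → S.bb v s t = 0 := by
    intro s t ht
    obtain ⟨i, rfl⟩ : ∃ i, t = i + (l + 1) := ⟨t - (l + 1), by omega⟩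
    rw [WStep.bb, pow_add, Module.End.mul_apply, hv, map_zero, map_zero]
  have e1 := L_low M'.L.toAddMonoidHom (S.bb v) (S.bb_L v) h1 h2 hc hc'
  have e2 := L_high M'.L.toAddMonoidHom (S.bb v) (S.bb_L v) h1 h2 hc hc'
  rw [iterate_eq] at e1
  exact ⟨e1, e2⟩

lemma WStep.low_mem (S : WStep M M' n) {v : M.V} {l c a : ℕ} (hv : v ∈ M.G a) :
    low (S.bb v) n l c ∈ M'.G (a + c) := by
  apply Submodule.sum_mem
  intro i hi
  rw [mem_range] at hi
  apply zsmul_mem
  have := S.B_mem i (a + (c - i)) _ (M.pow_mem hv (c - i))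
  rwa [show a + (c - i) + i = a + c by omega] at this

lemma WStep.high_ne (S : WStep M M' n) {v : M.V} {l c : ℕ} (hc : c ≤ n) (hc' : c ≤ l)
    (hv : (M.L ^ l) v ≠ 0) : high (S.bb v) n l c ≠ 0 := by
  intro h0
  have h1 := congrArg S.R h0
  rw [high, map_sum, map_zero, Finset.sum_eq_single 0] at h1
  · rw [pow_zero, one_smul, WStep.bb, S.RB, if_pos (by omega), smul_eq_zero] at h1
    apply hv
    have h2 := h1.resolve_left S.δ_ne
    rw [add_zero] at h2
    rw [show l = c + (l - c) by omega, pow_add, Module.End.mul_apply, h2, map_zero]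
  · intro b hb hb0
    rw [mem_range] at hb
    rw [map_zsmul, WStep.bb, S.RB, if_neg (by omega), smul_zero]
  · intro h; exact absurd (by simp) h

/-- Strings are transferred. -/
theorem WStep.str (S : WStep M M' n) {a l c : ℕ} (h : Str M a l) (hc : c ≤ n) (hc' : c ≤ l) :
    Str M' (a + c) (n + l - 2 * c) := by
  obtain ⟨v, hv, h1, h2⟩ := h
  obtain ⟨e1, e2⟩ := S.pow_low h2 hc hc'
  refine ⟨low (S.bb v) n l c, S.low_mem hv, ?_, ?_⟩
  · rw [e1]
    intro h0
    rw [← Int.cast_smul_eq_zsmul ℚ] at h0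
    rcases smul_eq_zero.1 h0 with h3 | h3
    · rw [Int.cast_eq_zero] at h3
      exact mul_ne_zero (pow_ne_zero _ (by norm_num)) (by
        exact_mod_cast (Nat.mul_pos (Nat.factorial_pos _) (Nat.factorial_pos _)).ne') h3
    · exact S.high_ne hc hc' h1 h3
  · rw [pow_succ', Module.End.mul_apply, e1, map_zsmul, e2, smul_zero]

end

/-- Sequences of products. -/
inductive WChain : LMod.{u} → List ℕ → LMod.{u} → Prop
  | nil (M : LMod.{u}) : WChain M [] M
  | cons {M M' M'' : LMod.{u}} {ns : List ℕ} {n : ℕ} : WChain M ns M' →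
      Nonempty (WStep M' M'' n) → WChain M (n :: ns) M''

lemma WChain.h_eq {M M' : LMod.{u}} {ns : List ℕ} (h : WChain M ns M') :
    M'.h = M.h + ns.sum := by
  induction h with
  | nil => simp
  | cons _ hS ih =>
    obtain ⟨S⟩ := hS
    rw [S.hh, ih, List.sum_cons]; ring

theorem WChain.str {M M' : LMod.{u}} {ns : List ℕ} (h : WChain M ns M') {a l c : ℕ}
    (hM : Str M a l) (h1 : c ≤ ns.sum) (h2 : 2 * c ≤ ns.sum + l)
    (h3 : ∀ n ∈ ns, c + n ≤ ns.sum + l) : Str M' (a + c) (ns.sum + l - 2 * c) := by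
  induction h generalizing c with
  | nil =>
    rw [List.sum_nil] at h1
    obtain rfl : c = 0 := by omega
    simpa using hM
  | @cons M' M'' ns n hc hS ih =>
    obtain ⟨S⟩ := hS
    rw [List.sum_cons] at h1 h2 h3 ⊢
    have h4 := h3 n (by simp)
    set c1 := min n c with hc1
    obtain ⟨c2, hc2⟩ : ∃ c2, c = c2 + c1 := ⟨c - c1, by omega⟩
    have h5 := ih (c := c2) (by omega) (by omega) (fun n' hn' => by
      have h6 := h3 n' (by simp [hn'])
      have h7 : n' ≤ ns.sum := List.single_le_sum (by simp) _ hn'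
      omega)
    have h6 := S.str h5 (c := c1) (by omega) (by omega)
    rwa [add_assoc, ← hc2, show n + (ns.sum + l - 2 * c2) - 2 * c1 =
      n + ns.sum + l - 2 * c by omega] at h6

/-- The injectivity of the Lefschetz operator from degree `j` to degree `h - j`. -/
def Inj (M : LMod.{u}) (j : ℕ) : Prop := ∀ v ∈ M.G j, (M.L ^ (M.h - 2 * j)) v = 0 → v = 0

/-- The surjectivity. -/
def Surj (M : LMod.{u}) (j : ℕ) : Prop :=
  ∀ v ∈ M.G (M.h - j), ∃ v' ∈ M.G j, (M.L ^ (M.h - 2 * j)) v' = v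

/-- **Injectivity in one degree of a product.** -/
theorem WChain.inj {M M' : LMod.{u}} {ns : List ℕ} (h : WChain M ns M') {j q : ℕ}
    (h1 : j ≤ q) (h2 : q ≤ j + ns.sum) (h3 : 2 * q < M.h + ns.sum)
    (h4 : ∀ n ∈ ns, q + j + n < M.h + ns.sum) (hI : Inj M' q) : Inj M j := by
  classical
  intro v hv h0
  by_contra hne
  have hex : ∃ e, (M.L ^ e) v = 0 := ⟨_, h0⟩
  set e := Nat.find hex with he
  have he0 : (M.L ^ e) v = 0 := Nat.find_spec hex
  have he1 : e ≤ M.h - 2 * j := Nat.find_min' hex h0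
  have he2 : e ≠ 0 := by
    intro h5
    rw [h5, pow_zero] at he0
    exact hne he0
  obtain ⟨l, hl⟩ : ∃ l, e = l + 1 := ⟨e - 1, by omega⟩
  have hS : Str M j l := by
    refine ⟨v, hv, fun h5 => ?_, ?_⟩
    · have := Nat.find_min' hex h5
      omega
    · rw [← hl]; exact he0
  have hh := h.h_eq
  set c := q - j + 1 - (M.h - 2 * j - l) with hc
  have h5 := h.str hS (c := c) (by omega) (by omega) (fun n hn => by
    have h6 := h4 n hn
    have h7 : n ≤ ns.sum := List.single_le_sum (by simp) _ hn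
    omega)
  obtain ⟨w, hw, w1, w2⟩ := h5
  have hu : (M'.L ^ (q - j - c)) w ∈ M'.G q := by
    have := M'.pow_mem hw (q - j - c)
    rwa [show j + c + (q - j - c) = q by omega] at this
  have h6 : (M'.L ^ (q - j - c)) w = 0 := by
    apply hI _ hu
    rw [← Module.End.mul_apply, ← pow_add]
    rw [show M'.h - 2 * q + (q - j - c) =
      (M'.h - 2 * q + (q - j - c) - (ns.sum + l - 2 * c + 1)) + (ns.sum + l - 2 * c + 1) by omega,
      pow_add, Module.End.mul_apply, w2, map_zero]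
  apply w1
  rw [show ns.sum + l - 2 * c = (ns.sum + l - 2 * c - (q - j - c)) + (q - j - c) by omega,
    pow_add, Module.End.mul_apply, h6, map_zero]

end Pool.Agent.Run7.h384.AB
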